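import Pool.Agent.Work.MP_1f9298_lc.Final

namespace Pool.Agent.Results.MP_1f9298_lc.JumpCondition

open Pool.Agent.Work.MP_1f9298_lc Pool.Agent.Lib.RelComp

theorem result (M : Type) (S : LA.Structure M) (hPA : IsPA S) (hns : Nonstandard S)
    (a b : Set ℕ) (_ha : IsEnumDegree (SS S) a) (hb : IsEnumDegree (SS S) b)
    (hcopy : IsCopyDegree S a) (hjump : TuringEquivalent (chi (jump b)) (chi (jump a))) :
    IsCopyDegree S b :=
  main hPA hns hb hcopy hjump.2

end Pool.Agent.Results.MP_1f9298_lc.JumpCondition
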